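import Pool.Agent.Y748.SR.Stm3

/-!
Project SR (MP_21f43f_nt): tightness in the main step.
-/

open Finset Filter Topology

set_option autoImplicit false

namespace Pool.Agent.Y545.SR

open Pool.Agent.Y748.SR

/-- the masses of the sets not contained in a large finite set are small -/
theorem tail_small {X : Type} {g : Finset X → Finset ℤ → ℝ} {D : Finset X} {e : Finset ℤ → ℝ}
    (he : Hol g D e) {η : ℝ} (hη : 0 < η) : ∃ T0 : Finset ℤ, ∀ T1 : Finset ℤ, T0 ⊆ T1 →
      ∃ s : ℝ, HasSum (fun T : Finset ℤ => if T ⊆ T1 then 0 else e T) s ∧ s ≤ η := by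
  have hs : HasSum e (g D ∅) := by
    have := he.sum ∅
    simpa using this
  have h1 : ∀ᶠ F : Finset (Finset ℤ) in atTop, g D ∅ - η < ∑ T ∈ F, e T :=
    hs.eventually (lt_mem_nhds (by linarith))
  obtain ⟨F0, hF0⟩ := Filter.eventually_atTop.1 h1
  refine ⟨F0.sup id, fun T1 hT1 => ?_⟩
  have hsub : F0 ≤ T1.powerset := by
    intro T hT
    rw [Finset.mem_powerset]
    exact (Finset.le_sup (f := id) hT).trans hT1
  have h2 := hF0 T1.powerset hsub
  have h3 : HasSum (fun T : Finset ℤ => if T ⊆ T1 then e T else 0) (∑ T ∈ T1.powerset, e T) := by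
    have h4 : HasSum (fun T : Finset ℤ => if T ⊆ T1 then e T else 0)
        (∑ T ∈ T1.powerset, (if T ⊆ T1 then e T else 0)) := by
      apply hasSum_sum_of_ne_finset_zero
      intro T hT
      rw [Finset.mem_powerset] at hT
      simp [hT]
    have h5 : ∑ T ∈ T1.powerset, (if T ⊆ T1 then e T else 0) = ∑ T ∈ T1.powerset, e T :=
      Finset.sum_congr rfl fun T hT => by
        rw [Finset.mem_powerset] at hT
        simp [hT]
    rwa [h5] at h4
  refine ⟨g D ∅ - ∑ T ∈ T1.powerset, e T, ?_, by linarith⟩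
  have h6 := hs.sub h3
  have h7 : (fun T : Finset ℤ => if T ⊆ T1 then 0 else e T) =
      fun T => e T - if T ⊆ T1 then e T else 0 := by
    funext T
    by_cases h : T ⊆ T1 <;> simp [h]
  rw [h7]
  exact h6

/-- upper bound of the polynomials of the smaller sets -/
theorem upper {X : Type} {g : Finset X → Finset ℤ → ℝ} (hH : S_HOLH) {D : Finset X}
    {e : Finset ℤ → ℝ} (he : Hol g D e) {S R T1 : Finset ℤ} (hSR : Disjoint S R)
    (hRT : Disjoint R T1) {Λ s : ℝ} (hΛ : 1 ≤ Λ)
    (hs : HasSum (fun T : Finset ℤ => if T ⊆ T1 then 0 else e T) s) :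
    hh g D S R (fun _ => Λ) ≤ g D S + Λ ^ D.card * s := by
  have h1 := hH X g D e he S R (fun _ => Λ) hSR
  have h2 := (he.sum S).add (hs.mul_left (Λ ^ D.card))
  refine hasSum_le ?_ h1 h2
  intro T
  have he0 := he.nonneg T
  have hΛ0 : 0 ≤ Λ ^ D.card := by positivity
  by_cases hT : T ⊆ T1
  · have h3 : T ∩ R = ∅ := by
      rw [← Finset.disjoint_iff_inter_eq_empty]
      exact (hRT.mono_right hT).symm
    simp [hT, h3]
  · by_cases hTc : T.card = D.card
    · have h4 : (∏ n ∈ T ∩ R, Λ) ≤ Λ ^ D.card := by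
        rw [Finset.prod_const]
        exact pow_le_pow_right₀ hΛ (by
          rw [← hTc]
          exact Finset.card_le_card Finset.inter_subset_left)
      by_cases hd : Disjoint T S
      · simp only [hd, hT, if_true, if_false]
        nlinarith [mul_le_mul_of_nonneg_left h4 he0]
      · simp only [hd, hT, if_false]
        have := mul_nonneg hΛ0 he0
        linarith
    · have h5 := he.supp T hTc
      simp [h5]

/-- lower bound of the polynomials of the smallest set -/
theorem lower {X : Type} {g : Finset X → Finset ℤ → ℝ} (hH : S_HOLH) {D : Finset X}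
    {e : Finset ℤ → ℝ} (he : Hol g D e) {S R : Finset ℤ} (hSR : Disjoint S R)
    {Λ : ℝ} (hΛ : 1 ≤ Λ) : g D S ≤ hh g D S R (fun _ => Λ) := by
  have h1 := hH X g D e he S R (fun _ => Λ) hSR
  refine hasSum_le ?_ (he.sum S) h1
  intro T
  by_cases hd : Disjoint T S
  · simp only [hd, if_true]
    have h4 : 1 ≤ ∏ n ∈ T ∩ R, Λ := by
      rw [Finset.prod_const]
      exact one_le_pow₀ hΛ
    nlinarith [mul_le_mul_of_nonneg_left h4 (he.nonneg T)]
  · simp [hd]

theorem pos_val {X : Type} {g : Finset X → Finset ℤ → ℝ} {D : Finset X}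
    {e : Finset ℤ → ℝ} (he : Hol g D e) (hp : ∀ T : Finset ℤ, T.card = D.card → 0 < e T)
    (S : Finset ℤ) : 0 < g D S := by
  obtain ⟨T, hT, hTc⟩ := (S.finite_toSet.infinite_compl).exists_subset_card_eq D.card
  have hd : Disjoint T S := by
    rw [Finset.disjoint_left]
    intro n hn hnS
    exact hT hn hnS
  have h1 := le_hasSum (he.sum S) T (by
    intro T' _
    split_ifs
    · exact he.nonneg T'
    · exact le_rfl)
  simp only [hd, if_true] at h1
  exact lt_of_lt_of_le (hp T hTc) h1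

/-- the increment is bounded by the polynomial at a large point -/
theorem incr {X : Type} {g : Finset X → Finset ℤ → ℝ} (hC : S_COEF) {A : Finset X}
    {S R : Finset ℤ} (hpos : ∀ y : ℤ → ℝ, (∀ n, 0 ≤ y n) → 0 ≤ hh g A S R y) {Λ : ℝ}
    (hΛ : 1 ≤ Λ) : (g A S - g A (S ∪ R)) * Λ ≤ hh g A S R (fun _ => Λ) := by
  obtain ⟨c, hc1, hc2⟩ := hC (fun S' => g A (S ∪ S')) R
  have hc3 : ∀ T ∈ R.powerset, 0 ≤ c T := by
    apply hc2
    intro y hy
    rw [← hc1]
    exact hpos y hy
  have h1 : g A S = ∑ T ∈ R.powerset, c T := by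
    have h2 := hc1 (fun _ => 1)
    rw [Finset.sum_eq_single ∅] at h2
    · simpa using h2
    · intro T _ hT
      have : (∏ n ∈ T, ((1 : ℝ) - 1)) = 0 := by
        obtain ⟨n, hn⟩ := Finset.nonempty_iff_ne_empty.2 hT
        exact Finset.prod_eq_zero hn (by norm_num)
      rw [this]; ring
    · intro h
      exact absurd (Finset.empty_mem_powerset R) h
  have h0 : g A (S ∪ R) = c ∅ := by
    have h2 := hc1 (fun _ => 0)
    rw [Finset.sum_eq_single R, Finset.sum_eq_single ∅] at h2
    · simpa using h2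
    · intro T _ hT
      obtain ⟨n, hn⟩ := Finset.nonempty_iff_ne_empty.2 hT
      rw [Finset.prod_eq_zero hn rfl, mul_zero]
    · intro h
      exact absurd (Finset.empty_mem_powerset R) h
    · intro T hT hTR
      have hne : (R \ T).Nonempty := by
        rw [Finset.sdiff_nonempty]
        intro h
        exact hTR (Finset.Subset.antisymm (Finset.mem_powerset.1 hT) h)
      obtain ⟨n, hn⟩ := hne
      rw [Finset.prod_eq_zero (s := R \ T) hn rfl, mul_zero, mul_zero]
    · intro h
      exact absurd (Finset.mem_powerset.2 (Finset.Subset.refl R)) h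
  have h3 : hh g A S R (fun _ => Λ) = ∑ T ∈ R.powerset, c T * ∏ n ∈ T, Λ := hc1 (fun _ => Λ)
  rw [h3, h1, h0]
  have he : ∅ ∈ R.powerset := Finset.empty_mem_powerset R
  rw [← Finset.add_sum_erase _ _ he, ← Finset.add_sum_erase _ _ he, add_sub_cancel_left,
    Finset.sum_mul]
  have h4 : ∑ T ∈ R.powerset.erase ∅, c T * Λ ≤
      ∑ T ∈ R.powerset.erase ∅, c T * ∏ n ∈ T, Λ := by
    apply Finset.sum_le_sum
    intro T hT
    have hT1 := Finset.mem_erase.1 hT
    apply mul_le_mul_of_nonneg_left _ (hc3 T hT1.2)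
    rw [Finset.prod_const]
    have hne : T.card ≠ 0 := by
      rw [Finset.card_ne_zero]
      exact Finset.nonempty_iff_ne_empty.2 hT1.1
    calc Λ = Λ ^ 1 := (pow_one Λ).symm
      _ ≤ Λ ^ T.card := pow_le_pow_right₀ hΛ (by omega)
  have h5 : 0 ≤ c ∅ * ∏ n ∈ (∅ : Finset ℤ), Λ := by
    rw [Finset.prod_empty, mul_one]
    exact hc3 ∅ he
  linarith

theorem t_STEPB : S_HOLH → S_COEF → S_STP → S_STEPB := by
  intro hH hC hP X _ g a B i j e0 e1 e2 h S ε hε
  have hB : 0 < g B S := pos_val h.h0 h.p0 S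
  have hc1 : (insert i B).card = B.card + 1 := Finset.card_insert_of_notMem h.iB
  have hc2 : (insert j B).card = B.card + 1 := Finset.card_insert_of_notMem h.jB
  have hg1 : 0 ≤ g (insert i B) S := h.sys.nonneg _ _
  have hg2 : 0 ≤ g (insert j B) S := h.sys.nonneg _ _
  set M := (g (insert i B) S + 1) * (g (insert j B) S + 1) with hM
  have hM0 : 0 < M := by positivity
  set Λ : ℝ := max 1 (M / (g B S * ε)) with hΛd
  have hΛ : 1 ≤ Λ := le_max_left _ _
  have hΛ0 : 0 < Λ := by linarith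
  have hΛM : M ≤ g B S * ε * Λ := by
    have h1 : M / (g B S * ε) ≤ Λ := le_max_right _ _
    rw [div_le_iff₀ (by positivity)] at h1
    linarith
  obtain ⟨T01, hT01⟩ := tail_small h.h1 (η := (Λ ^ (B.card + 1))⁻¹) (by positivity)
  obtain ⟨T02, hT02⟩ := tail_small h.h2 (η := (Λ ^ (B.card + 1))⁻¹) (by positivity)
  refine ⟨S ∪ (T01 ∪ T02), Finset.subset_union_left, fun R hR => ?_⟩
  obtain ⟨s1, hs1, hs1'⟩ := hT01 (S ∪ (T01 ∪ T02))
    (Finset.subset_union_left.trans Finset.subset_union_right)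
  obtain ⟨s2, hs2, hs2'⟩ := hT02 (S ∪ (T01 ∪ T02))
    (Finset.subset_union_right.trans Finset.subset_union_right)
  have hSR : Disjoint S R := (hR.mono_right Finset.subset_union_left).symm
  have hu1 := upper hH h.h1 hSR hR hΛ hs1
  have hu2 := upper hH h.h2 hSR hR hΛ hs2
  rw [hc1] at hu1
  rw [hc2] at hu2
  have hpow : 0 < Λ ^ (B.card + 1) := by positivity
  have hb1 : Λ ^ (B.card + 1) * s1 ≤ 1 := by
    calc Λ ^ (B.card + 1) * s1 ≤ Λ ^ (B.card + 1) * (Λ ^ (B.card + 1))⁻¹ :=
          mul_le_mul_of_nonneg_left hs1' hpow.le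
      _ = 1 := mul_inv_cancel₀ hpow.ne'
  have hb2 : Λ ^ (B.card + 1) * s2 ≤ 1 := by
    calc Λ ^ (B.card + 1) * s2 ≤ Λ ^ (B.card + 1) * (Λ ^ (B.card + 1))⁻¹ :=
          mul_le_mul_of_nonneg_left hs2' hpow.le
      _ = 1 := mul_inv_cancel₀ hpow.ne'
  have hl := lower hH h.h0 hSR hΛ
  have hpos : ∀ y : ℤ → ℝ, (∀ n, 0 ≤ y n) → 0 ≤ hh g (insert i (insert j B)) S R y :=
    fun y hy => hP X g a B i j e0 e1 e2 h S R y hSR hy
  have hinc := incr hC hpos hΛ
  have hFA := hpos (fun _ => Λ) (fun _ => hΛ0.le)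
  have hray := h.sys.ray S R (fun _ => Λ) hSR B ∅ i j (fun _ => 0) h.ij h.iB h.jB (by simp)
    (by simp) (by simp)
  unfold RayI PW at hray
  simp only [Finset.powerset_empty, Finset.sum_singleton, Finset.union_empty,
    Finset.prod_empty, mul_one] at hray
  have hl1 := lower hH h.h1 hSR hΛ
  have hl2 := lower hH h.h2 hSR hΛ
  have h1 : hh g (insert i B) S R (fun _ => Λ) * hh g (insert j B) S R (fun _ => Λ) ≤ M := by
    apply mul_le_mul (by linarith) (by linarith) (by linarith) (by linarith)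
  have h2 : g B S * hh g (insert i (insert j B)) S R (fun _ => Λ) ≤ M :=
    (mul_le_mul_of_nonneg_right hl hFA).trans (hray.trans h1)
  have h3 : g B S * ((g (insert i (insert j B)) S - g (insert i (insert j B)) (S ∪ R)) * Λ) ≤
      g B S * (ε * Λ) := by
    calc _ ≤ g B S * hh g (insert i (insert j B)) S R (fun _ => Λ) :=
          mul_le_mul_of_nonneg_left hinc hB.le
      _ ≤ M := h2
      _ ≤ g B S * ε * Λ := hΛM
      _ = g B S * (ε * Λ) := by ring
  have h4 := le_of_mul_le_mul_left h3 hB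
  exact le_of_mul_le_mul_right h4 hΛ0

end Pool.Agent.Y545.SR
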