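import Pool.Agent.Y748.SR.Stm

/-!
Project SR (MP_21f43f_nt): masses at a point where the sites are pairwise independent.
-/

open Finset Filter Topology

set_option autoImplicit false

namespace Pool.Agent.Y545.SR

open Pool.Agent.Y748.SR

/-- the value of a function supported at one point -/
theorem hasSum_single_eq {f : Finset ℤ → ℝ} {c : ℝ} (h : HasSum f c) (T0 : Finset ℤ)
    (h0 : ∀ T, T ≠ T0 → f T = 0) : c = f T0 :=
  h.unique (hasSum_single T0 h0)

theorem empty_val {X : Type} [DecidableEq X] {g : Finset X → Finset ℤ → ℝ}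
    {a : X → ℤ → ℝ} (hs : Sys g a) {e : Finset ℤ → ℝ} (he : Hol g ∅ e) : e ∅ = 1 := by
  have h := he.sum ∅
  have h1 := hasSum_single_eq h ∅ (by
    intro T hT
    have : e T = 0 := he.supp T (by simpa using hT)
    simp [this])
  rw [hs.lat] at h1
  simpa using h1.symm

theorem single_val {X : Type} [DecidableEq X] {g : Finset X → Finset ℤ → ℝ}
    {a : X → ℤ → ℝ} (hs : Sys g a) (x : X) {e : Finset ℤ → ℝ} (he : Hol g {x} e) (n : ℤ) :
    e {n} = a x n := by
  have h := (he.sum ∅).sub (he.sum {n})
  have h1 := hasSum_single_eq h {n} (by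
    intro T hT
    by_cases hc : T.card = 1
    · obtain ⟨m, rfl⟩ := Finset.card_eq_one.1 hc
      have hmn : m ≠ n := by
        rintro rfl
        exact hT rfl
      simp [hmn.symm, hmn]
    · have : e T = 0 := he.supp T (by simpa using hc)
      simp [this])
  rw [hs.one, hs.one] at h1
  simp at h1
  exact h1.symm

theorem t_VST : S_IND → S_LIM → S_VST := by
  intro hind hlim X _ g a hs A e he T y hT hpair
  set f : Finset X → ℝ := fun B => ∑ T1 ∈ T.powerset, e B T1 * ∏ n ∈ T1, y n with hf
  have hsub : ∀ B, B ⊆ A → Tendsto (fun N : ℕ => hh g B (Finset.Icc (-(N : ℤ)) N \ T) T y) atTop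
      (𝓝 (f B)) := fun B hB => hlim X g B (e B) (he B hB) T y
  have hPW : ∀ (C Y : Finset X) (w : X → ℝ), C ∪ Y ⊆ A →
      Tendsto (fun N : ℕ => PW (fun B => hh g B (Finset.Icc (-(N : ℤ)) N \ T) T y) C Y w) atTop
        (𝓝 (PW f C Y w)) := by
    intro C Y w hCY
    unfold PW
    apply tendsto_finset_sum
    intro B hB
    apply Tendsto.mul_const
    apply hsub
    refine (Finset.union_subset_union (Finset.Subset.refl _) (Finset.mem_powerset.1 hB)).trans hCY
  have hray : RayOn A f := by
    intro C Y i j w hij hiC hjC hiY hjY hCY hsubA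
    have hi : i ∈ A := hsubA (by simp)
    have hj : j ∈ A := hsubA (by simp)
    have hCYA : C ∪ Y ⊆ A := by
      intro z hz
      exact hsubA (by simp only [Finset.mem_insert]; right; right; exact hz)
    unfold RayI
    refine le_of_tendsto_of_tendsto ((hPW C Y w hCYA).mul
      (hPW (insert i (insert j C)) Y w ?_))
      ((hPW (insert i C) Y w ?_).mul (hPW (insert j C) Y w ?_)) ?_
    · intro z hz
      simp only [Finset.mem_union, Finset.mem_insert] at hz
      rcases hz with (rfl | rfl | hz) | hz
      · exact hi
      · exact hj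
      · exact hCYA (by simp [hz])
      · exact hCYA (by simp [hz])
    · intro z hz
      simp only [Finset.mem_union, Finset.mem_insert] at hz
      rcases hz with (rfl | hz) | hz
      · exact hi
      · exact hCYA (by simp [hz])
      · exact hCYA (by simp [hz])
    · intro z hz
      simp only [Finset.mem_union, Finset.mem_insert] at hz
      rcases hz with (rfl | hz) | hz
      · exact hj
      · exact hCYA (by simp [hz])
      · exact hCYA (by simp [hz])
    · filter_upwards with N
      exact hs.ray (Finset.Icc (-(N : ℤ)) N \ T) T y Finset.sdiff_disjoint C Y i j w hij hiC hjC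
        hiY hjY hCY
  have hf0 : f ∅ = 1 := by
    have h0 := he ∅ (Finset.empty_subset _)
    simp only [hf]
    rw [Finset.sum_eq_single ∅]
    · rw [empty_val hs h0]; simp
    · intro T1 _ hT1
      rw [h0.supp T1 (by simpa using hT1), zero_mul]
    · intro h
      exact absurd (Finset.empty_mem_powerset T) h
  have hf1 : ∀ x ∈ A, f {x} = ∑ n ∈ T, a x n * y n := by
    intro x hx
    have h0 := he {x} (by simpa using hx)
    simp only [hf]
    have hinj : Set.InjOn (fun n : ℤ => ({n} : Finset ℤ)) (T : Set ℤ) := by
      intro p _ q _ hpq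
      simpa using hpq
    have : ∑ n ∈ T, a x n * y n =
        ∑ T1 ∈ T.image (fun n : ℤ => ({n} : Finset ℤ)), e {x} T1 * ∏ n ∈ T1, y n := by
      rw [Finset.sum_image hinj]
      refine Finset.sum_congr rfl fun n _ => ?_
      rw [single_val hs x h0 n]
      simp
    rw [this]
    symm
    apply Finset.sum_subset
    · intro T1 hT1
      obtain ⟨n, hn, rfl⟩ := Finset.mem_image.1 hT1
      simpa using hn
    · intro T1 hT1 hT2
      rw [h0.supp T1, zero_mul]
      intro hc
      rw [Finset.card_singleton] at hc
      obtain ⟨n, rfl⟩ := Finset.card_eq_one.1 hc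
      apply hT2
      exact Finset.mem_image.2 ⟨n, by simpa using hT1, rfl⟩
  have hfA : f A = e A T * ∏ n ∈ T, y n := by
    have h0 := he A (Finset.Subset.refl _)
    simp only [hf]
    rw [Finset.sum_eq_single T]
    · intro T1 hT1 hne
      rw [h0.supp T1, zero_mul]
      intro hc
      exact hne (Finset.eq_of_subset_of_card_le (Finset.mem_powerset.1 hT1) (by omega))
    · intro h
      exact absurd (Finset.mem_powerset.2 (Finset.Subset.refl _)) h
  rw [← hfA, hind X f A hray hf0 ?_]
  · exact Finset.prod_congr rfl fun x hx => hf1 x hx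
  · intro x hx x' hx' hne
    rw [hf1 x hx, hf1 x' hx']
    exact hpair x hx x' hx' hne

end Pool.Agent.Y545.SR
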